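import Pool.Agent.H94.LP7.M01

/-!
# XD, module C1: the densities decrease

`push`: by `recu` the injection `{w ∈ lay N (i + 1) (j + 1) | i ∈ w} → lay N (i + 1) j`,
`w ↦ w.erase i` is a bijection.

`density`: induction on `j`.  For `τ (j + 1) ≤ l < i` (degree `j + 1`) let
`D_l = {v ∈ lay N (l + 1) j | l ::ₘ v ∈ D}`.  It is closed (`push`), and the elements of `D_{l'}` in the
variables `≤ l` are in `D_l` for `l < l'` (move `l' → l`, `push`).  So by induction
`(1 - j ε) |D_{l'}| f (l + 1) j ≤ |D_l| f (l' + 1) j` for `l ≤ l'`, and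
`|D (< i)| = |D (< τ (j + 1))| + ∑_{τ (j + 1) ≤ l < i} |D_l|`,
`f i (j + 1) = f (τ (j + 1)) (j + 1) + ∑_{τ (j + 1) ≤ l < i} f (l + 1) j`.  See xd_proof.txt, (3).
-/

set_option autoImplicit false

namespace Pool.Agent.XD

open Finset

/-- `D` is closed under the moves `b → a`, `a < b`, inside `N`. -/
def Dn (N D : Finset (Multiset ℕ)) : Prop :=
  ∀ v ∈ D, ∀ b ∈ v, ∀ a, a < b → a ::ₘ v.erase b ∈ N → a ::ₘ v.erase b ∈ D

variable {m d : ℕ} {N : Finset (Multiset ℕ)} {f : ℕ → ℕ → ℕ} {τ : ℕ → ℕ} {ε : ℝ}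

/-- The elements of `D` in the variables `≤ l`: those which contain `l` correspond to the `v` with
`l ::ₘ v ∈ D`. -/
private theorem P_split {N D : Finset (Multiset ℕ)} {i j l : ℕ}
    (hdiv : ∀ v ∈ N, ∀ u, u ≤ v → u ∈ N) (hD : D ⊆ lay N i (j + 1)) :
    (D.filter fun v => ∀ x ∈ v, x < l + 1).card = (D.filter fun v => ∀ x ∈ v, x < l).card +
      ((lay N (l + 1) j).filter fun v => l ::ₘ v ∈ D).card := by
  classical
  rw [← Finset.card_filter_add_card_filter_not (s := D.filter fun v => ∀ x ∈ v, x < l + 1)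
    (p := fun v => l ∉ v)]
  congr 1
  · congr 1
    ext v
    rw [mem_filter, mem_filter, mem_filter]
    constructor
    · rintro ⟨⟨h1, h2⟩, h3⟩
      refine ⟨h1, fun x hx => ?_⟩
      have h4 := h2 x hx
      have h5 : x ≠ l := fun h => h3 (h ▸ hx)
      omega
    · rintro ⟨h1, h2⟩
      exact ⟨⟨h1, fun x hx => (h2 x hx).trans (Nat.lt_succ_self l)⟩,
        fun h => lt_irrefl l (h2 l h)⟩
  · refine card_nbij' (fun w => w.erase l) (fun v => l ::ₘ v) ?_ ?_ ?_ ?_
    · intro w hw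
      rw [mem_coe, mem_filter, mem_filter, not_not] at hw
      obtain ⟨⟨h1, h2⟩, h3⟩ := hw
      have h4 := mem_lay.1 (hD h1)
      rw [mem_coe, mem_filter, mem_lay]
      refine ⟨⟨hdiv w h4.1 _ (Multiset.erase_le l w), ?_, fun x hx =>
        h2 x (Multiset.mem_of_mem_erase hx)⟩, ?_⟩
      · rw [Multiset.card_erase_of_mem h3, h4.2.1]
        rfl
      · rw [Multiset.cons_erase h3]
        exact h1
    · intro v hv
      rw [mem_coe, mem_filter, mem_lay] at hv
      rw [mem_coe, mem_filter, mem_filter, not_not]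
      refine ⟨⟨hv.2, fun x hx => ?_⟩, Multiset.mem_cons_self l v⟩
      rcases Multiset.mem_cons.1 hx with rfl | hx
      · exact Nat.lt_succ_self x
      · exact hv.1.2.2 x hx
    · intro w hw
      rw [mem_coe, mem_filter, mem_filter, not_not] at hw
      exact Multiset.cons_erase hw.2
    · intro v _
      exact Multiset.erase_cons_head l v

theorem push (hN : Stair m d N f) (hT : Thr m d f τ ε) {j i : ℕ} (hj : j + 1 < d)
    (hi : τ (j + 1) ≤ i) (him : i < m) {v : Multiset ℕ} (hv : v ∈ lay N (i + 1) j) :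
    i ::ₘ v ∈ N := by
  classical
  have h1 := P_split (N := N) (D := lay N (i + 1) (j + 1)) (i := i + 1) (j := j) (l := i)
    hN.div (Subset.refl _)
  have h2 : ((lay N (i + 1) (j + 1)).filter fun v => ∀ x ∈ v, x < i + 1) =
      lay N (i + 1) (j + 1) := by
    refine filter_true_of_mem fun v hv => ?_
    exact (mem_lay.1 hv).2.2
  have h3 : ((lay N (i + 1) (j + 1)).filter fun v => ∀ x ∈ v, x < i) = lay N i (j + 1) := by
    ext v
    rw [mem_filter, mem_lay, mem_lay]
    constructor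
    · rintro ⟨⟨h4, h5, -⟩, h6⟩
      exact ⟨h4, h5, h6⟩
    · rintro ⟨h4, h5, h6⟩
      exact ⟨⟨h4, h5, fun x hx => (h6 x hx).trans (Nat.lt_succ_self i)⟩, h6⟩
  rw [h2, h3, hN.cnt (i + 1) him (j + 1) hj.le, hN.cnt i him.le (j + 1) hj.le,
    hT.recu j hj i hi him, ← hN.cnt (i + 1) him j (by omega)] at h1
  have h4 : ((lay N (i + 1) j).filter fun v => i ::ₘ v ∈ lay N (i + 1) (j + 1)) =
      lay N (i + 1) j := by
    refine eq_of_subset_of_card_le (filter_subset _ _) ?_
    omega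
  rw [← h4, mem_filter] at hv
  exact (mem_lay.1 hv.2).1

/-- sums of the numbers -/
private theorem P_num (hT : Thr m d f τ ε) {j : ℕ} (hj : j + 1 < d) {i : ℕ} (hi : τ (j + 1) ≤ i)
    (him : i ≤ m) : f i (j + 1) = f (τ (j + 1)) (j + 1) + ∑ l ∈ Ico (τ (j + 1)) i, f (l + 1) j := by
  induction i, hi using Nat.le_induction with
  | base => simp
  | succ i hi ih =>
    rw [hT.recu j hj i hi him, ih (Nat.le_of_succ_le him), sum_Ico_succ_top hi, Nat.add_assoc]

/-- sums of the cardinalities -/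
private theorem P_sum {N D : Finset (Multiset ℕ)} {i j T : ℕ}
    (hdiv : ∀ v ∈ N, ∀ u, u ≤ v → u ∈ N) (hD : D ⊆ lay N i (j + 1)) {k : ℕ} (hk : T ≤ k) :
    (D.filter fun v => ∀ x ∈ v, x < k).card = (D.filter fun v => ∀ x ∈ v, x < T).card +
      ∑ l ∈ Ico T k, ((lay N (l + 1) j).filter fun v => l ::ₘ v ∈ D).card := by
  induction k, hk using Nat.le_induction with
  | base => rw [Ico_self, sum_empty, Nat.add_zero]
  | succ k hk ih =>
    rw [P_split hdiv hD, ih, sum_Ico_succ_top hk, Nat.add_assoc]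

/-- the weighted comparison -/
private theorem P_avg {x ε P S S' F G G' : ℝ} (hx : 0 ≤ x) (hε : 0 ≤ ε) (hP : 0 ≤ P)
    (hS : 0 ≤ S) (hS' : 0 ≤ S') (hF : 0 ≤ F) (hG : 0 ≤ G) (hG' : 0 ≤ G')
    (h1 : (1 - x * ε) * (S' * G) ≤ S * G') (h2 : F ≤ ε * (F + G)) :
    (1 - (x + 1) * ε) * (P + S + S') * (F + G) ≤ (P + S) * (F + G + G') := by
  have h3 : (1 - (x + 1) * ε) * ((P + S) * (F + G)) ≤ (P + S) * (F + G) := by
    have h4 : 0 ≤ (P + S) * (F + G) := by positivity
    have h5 : 0 ≤ (x + 1) * ε := by positivity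
    nlinarith
  have h4 : (1 - (x + 1) * ε) * (S' * (F + G)) ≤ (P + S) * G' := by
    have h6 : 0 ≤ (P + S) * G' := by positivity
    have h7 : 0 ≤ S' * (F + G) := by positivity
    rcases le_or_gt (1 - (x + 1) * ε) 0 with h | h
    · exact (mul_nonpos_of_nonpos_of_nonneg h h7).trans h6
    · have hε1 : ε < 1 := by nlinarith [mul_nonneg hx hε]
      have hx1 : 0 ≤ 1 - x * ε := by nlinarith
      have h8 : 1 - (x + 1) * ε ≤ (1 - x * ε) * (1 - ε) := by
        nlinarith [mul_nonneg hx (mul_nonneg hε hε)]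
      have h9 : (1 - ε) * (F + G) ≤ G := by linarith
      calc (1 - (x + 1) * ε) * (S' * (F + G))
          ≤ (1 - x * ε) * (1 - ε) * (S' * (F + G)) := mul_le_mul_of_nonneg_right h8 h7
        _ = (1 - x * ε) * (S' * ((1 - ε) * (F + G))) := by ring
        _ ≤ (1 - x * ε) * (S' * G) :=
            mul_le_mul_of_nonneg_left (mul_le_mul_of_nonneg_left h9 hS') hx1
        _ ≤ S * G' := h1
        _ ≤ (P + S) * G' := mul_le_mul_of_nonneg_right (by linarith) hG'
  calc (1 - (x + 1) * ε) * (P + S + S') * (F + G)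
      = (1 - (x + 1) * ε) * ((P + S) * (F + G)) + (1 - (x + 1) * ε) * (S' * (F + G)) := by ring
    _ ≤ (P + S) * (F + G) + (P + S) * G' := add_le_add h3 h4
    _ = (P + S) * (F + G + G') := by ring

theorem density (hN : Stair m d N f) (hT : Thr m d f τ ε) (hε : 0 ≤ ε) (j : ℕ) (hj : j + 1 < d)
    (i i' : ℕ) (him : i ≤ m) (hi' : τ (j + 1) ≤ i') (hii : i' ≤ i) (D : Finset (Multiset ℕ))
    (hD : D ⊆ lay N i j) (hDn : Dn N D) :
    (1 - j * ε) * (D.card : ℝ) * (f i' j : ℝ) ≤
      ((D.filter fun v => ∀ x ∈ v, x < i').card : ℝ) * (f i j : ℝ) := by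
  classical
  induction j generalizing i i' D with
  | zero =>
    have h1 : (D.filter fun v => ∀ x ∈ v, x < i') = D := by
      refine filter_true_of_mem fun v hv x hx => ?_
      have h2 := (mem_lay.1 (hD hv)).2.1
      rw [Multiset.card_eq_zero.1 h2] at hx
      exact absurd hx (Multiset.notMem_zero x)
    have h3 : lay N i' 0 = lay N i 0 := by
      ext v
      rw [mem_lay, mem_lay]
      constructor
      · rintro ⟨h4, h5, -⟩
        refine ⟨h4, h5, fun x hx => ?_⟩
        rw [Multiset.card_eq_zero.1 h5] at hx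
        exact absurd hx (Multiset.notMem_zero x)
      · rintro ⟨h4, h5, -⟩
        refine ⟨h4, h5, fun x hx => ?_⟩
        rw [Multiset.card_eq_zero.1 h5] at hx
        exact absurd hx (Multiset.notMem_zero x)
    have h4 : f i' 0 = f i 0 := by
      rw [← hN.cnt i' (hii.trans him) 0 (Nat.zero_le d), ← hN.cnt i him 0 (Nat.zero_le d), h3]
    rw [h1, h4]
    simp
  | succ j ih =>
    have hj1 : j + 1 < d := by omega
    have hTm : τ (j + 1) ≤ τ (j + 1 + 1) := hT.mono (j + 1) (by omega) hj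
    have hTi' : τ (j + 1) ≤ i' := hTm.trans hi'
    have hTi : τ (j + 1) ≤ i := hTi'.trans hii
    have hi'm : i' ≤ m := hii.trans him
    set T := τ (j + 1) with hTdef
    set DD : ℕ → Finset (Multiset ℕ) := fun l => (lay N (l + 1) j).filter fun v => l ::ₘ v ∈ D
      with hDD
    have hDDn : ∀ l, T ≤ l → l < i → Dn N (DD l) := by
      intro l hTl hli v hv b hb a hab haN
      have hv1 := mem_filter.1 hv
      have hv2 := mem_lay.1 hv1.1
      have h1 : a ::ₘ v.erase b ∈ lay N (l + 1) j := by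
        rw [mem_lay]
        refine ⟨haN, ?_, fun x hx => ?_⟩
        · rw [Multiset.card_cons, Multiset.card_erase_of_mem hb, ← hv2.2.1]
          have : 0 < Multiset.card v := Multiset.card_pos_iff_exists_mem.2 ⟨b, hb⟩
          exact Nat.succ_pred_eq_of_pos this
        · rcases Multiset.mem_cons.1 hx with rfl | hx
          · exact hab.trans (hv2.2.2 b hb)
          · exact hv2.2.2 x (Multiset.mem_of_mem_erase hx)
      refine mem_filter.2 ⟨h1, ?_⟩
      have h2 : (l ::ₘ v).erase b = l ::ₘ v.erase b := Multiset.erase_cons_tail_of_mem hb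
      have h3 := hDn (l ::ₘ v) hv1.2 b (Multiset.mem_cons_of_mem hb) a hab
      rw [h2, Multiset.cons_swap] at h3
      exact h3 (push hN hT hj1 hTl (by omega) h1)
    have hincl : ∀ l l', T ≤ l → l < l' → l' < i →
        ((DD l').filter fun v => ∀ x ∈ v, x < l + 1) ⊆ DD l := by
      intro l l' hTl hll hli v hv
      rw [mem_filter] at hv
      have hv1 := mem_filter.1 hv.1
      have hv2 := mem_lay.1 hv1.1
      have h1 : v ∈ lay N (l + 1) j := mem_lay.2 ⟨hv2.1, hv2.2.1, hv.2⟩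
      refine mem_filter.2 ⟨h1, ?_⟩
      have h3 := hDn (l' ::ₘ v) hv1.2 l' (Multiset.mem_cons_self l' v) l hll
      rw [Multiset.erase_cons_head] at h3
      exact h3 (push hN hT hj1 hTl (by omega) h1)
    have hpair : ∀ l l', T ≤ l → l < l' → l' < i →
        (1 - j * ε) * (((DD l').card : ℝ) * (f (l + 1) j : ℝ)) ≤
          ((DD l).card : ℝ) * (f (l' + 1) j : ℝ) := by
      intro l l' hTl hll hli
      have h1 := ih hj1 (l' + 1) (l + 1) (by omega) (by omega) (by omega) (DD l')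
        (filter_subset _ _) (hDDn l' (hTl.trans hll.le) hli)
      have h2 : (((DD l').filter fun v => ∀ x ∈ v, x < l + 1).card : ℝ) ≤ ((DD l).card : ℝ) := by
        exact_mod_cast card_le_card (hincl l l' hTl hll hli)
      calc (1 - j * ε) * (((DD l').card : ℝ) * (f (l + 1) j : ℝ))
          = (1 - j * ε) * ((DD l').card : ℝ) * (f (l + 1) j : ℝ) := by ring
        _ ≤ _ := h1
        _ ≤ ((DD l).card : ℝ) * (f (l' + 1) j : ℝ) :=
            mul_le_mul_of_nonneg_right h2 (Nat.cast_nonneg _)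
    -- the sums
    have hs' := P_sum (N := N) (D := D) (i := i) (j := j) (T := T) hN.div hD hTi'
    have hsi := P_sum (N := N) (D := D) (i := i) (j := j) (T := T) hN.div hD hTi
    have hDi : (D.filter fun v => ∀ x ∈ v, x < i) = D :=
      filter_true_of_mem fun v hv => (mem_lay.1 (hD hv)).2.2
    rw [hDi, ← sum_Ico_consecutive _ hTi' hii] at hsi
    have hf' := P_num hT hj1 (i := i') hTi' hi'm
    have hfi := P_num hT hj1 (i := i) hTi him
    rw [← sum_Ico_consecutive _ hTi' hii] at hfi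
    set P := (D.filter fun v => ∀ x ∈ v, x < T).card with hP
    set S := ∑ l ∈ Ico T i', ((lay N (l + 1) j).filter fun v => l ::ₘ v ∈ D).card with hS
    set S' := ∑ l ∈ Ico i' i, ((lay N (l + 1) j).filter fun v => l ::ₘ v ∈ D).card with hS'
    set G := ∑ l ∈ Ico T i', f (l + 1) j with hG
    set G' := ∑ l ∈ Ico i' i, f (l + 1) j with hG'
    have hmain : (1 - j * ε) * ((S' : ℝ) * (G : ℝ)) ≤ (S : ℝ) * (G' : ℝ) := by
      have e1 : (S' : ℝ) * (G : ℝ) =
          ∑ l' ∈ Ico i' i, ∑ l ∈ Ico T i', ((DD l').card : ℝ) * (f (l + 1) j : ℝ) := by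
        rw [hS', hG]
        push_cast
        rw [sum_mul_sum]
      have e2 : (S : ℝ) * (G' : ℝ) =
          ∑ l' ∈ Ico i' i, ∑ l ∈ Ico T i', ((DD l).card : ℝ) * (f (l' + 1) j : ℝ) := by
        rw [hS, hG']
        push_cast
        rw [sum_mul_sum, sum_comm]
      rw [e1, e2, mul_sum]
      refine sum_le_sum fun l' hl' => ?_
      rw [mul_sum]
      refine sum_le_sum fun l hl => ?_
      rw [mem_Ico] at hl hl'
      exact hpair l l' hl.1 (by omega) hl'.2
    have hmono : f (τ (j + 1 + 1)) (j + 1) ≤ f i' (j + 1) := by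
      rw [← hN.cnt _ (hi'.trans hi'm) (j + 1) hj1.le, ← hN.cnt i' hi'm (j + 1) hj1.le]
      refine card_le_card fun v hv => ?_
      rw [mem_lay] at hv ⊢
      exact ⟨hv.1, hv.2.1, fun x hx => (hv.2.2 x hx).trans_le hi'⟩
    have hrat : (f T (j + 1) : ℝ) ≤ ε * ((f T (j + 1) : ℝ) + (G : ℝ)) := by
      have h1 := hT.ratio (j + 1) (by omega) hj
      have h2 : (f (τ (j + 1 + 1)) (j + 1) : ℝ) ≤ (f i' (j + 1) : ℝ) := by exact_mod_cast hmono
      have h3 : (f i' (j + 1) : ℝ) = (f T (j + 1) : ℝ) + (G : ℝ) := by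
        rw [hf']
        push_cast
        rfl
      rw [← h3]
      exact h1.trans (mul_le_mul_of_nonneg_left h2 hε)
    have key := P_avg (x := (j : ℝ)) (ε := ε) (P := (P : ℝ)) (S := (S : ℝ)) (S' := (S' : ℝ))
      (F := (f T (j + 1) : ℝ)) (G := (G : ℝ)) (G' := (G' : ℝ)) (Nat.cast_nonneg _) hε
      (Nat.cast_nonneg _) (Nat.cast_nonneg _) (Nat.cast_nonneg _) (Nat.cast_nonneg _)
      (Nat.cast_nonneg _) (Nat.cast_nonneg _) hmain hrat
    rw [hs', hf', hfi]
    have hDc : (D.card : ℝ) = (P : ℝ) + S + S' := by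
      rw [hsi]
      push_cast
      ring
    rw [hDc]
    push_cast
    push_cast at key
    refine key.trans (le_of_eq ?_)
    ring

end Pool.Agent.XD
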